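import Pool.Agent.Helper74.RN.St

set_option autoImplicit false

namespace Pool.Agent.Helper39.RN

open Pool.Agent.Helper74 Pool.Agent.Helper74.RN

theorem hCLG : Pool.Agent.Helper74.RN.StCLG := by
  intro G Γ hCM
  unfold CM at hCM
  push_neg at hCM
  obtain ⟨a, b, z, hab, ⟨t, hzt⟩, hza, hzb⟩ := hCM
  have hone : DI.One Γ.Adj :=
    ⟨a, z, z, b, ⟨t, hzt⟩, ⟨t, hzt.symm⟩, hab, fun h => hza h.symm, Γ.irrefl, hzb⟩
  by_cases hta : Γ.Adj t a
  · exact Or.inl ⟨⟨z, a, t, b, hzt, hta.symm, hab, hzb⟩, hone⟩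
  · by_cases htb : Γ.Adj t b
    · exact Or.inl ⟨⟨z, b, t, a, hzt, htb.symm, hab.symm, hza⟩, hone⟩
    · exact Or.inr ⟨a, b, z, t, hab, hzt, fun h => hza h.symm, fun h => hta h.symm,
        fun h => hzb h.symm, fun h => htb h.symm⟩

end Pool.Agent.Helper39.RN

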